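import Pool.Agent.PX.Stmts
import Pool.Agent.Helper22_PX.MAX

set_option autoImplicit false

/-!
# Squad PX (`MP_b2b50d_lc`), row EPX: the point exists
-/

namespace Pool.Agent.PX.H26

open MvPolynomial
open Pool.Agent.RS (FF io)
open Pool.Agent.PW (dd JUN RR FG Robust VV Piv del eul Ph Zer Free)
open Pool.Agent.PW.H22 (cut cut_X_pos cut_X_neg pderiv_cut_pos pderiv_cut_neg cut_eq_self interact
  indep_of_minor ex ex_C ex_X cut_monomial_pos cut_monomial_neg)

/-- `exists_embedding` for families with any finite index type. -/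
theorem exists_embedding' {E K s κ : Type} [Field E] [Field K] [Algebra E K] [IsAlgClosed K]
    [Fintype s] [Fintype κ] (hr : Fintype.card s = Fintype.card κ) (U : κ → MvPolynomial s E)
    (hU : AlgebraicIndependent E U) (σ : κ → K) (hσ : AlgebraicIndependent E σ) :
    ∃ ι : MvPolynomial s E →ₐ[E] K, Function.Injective ι ∧ ∀ a, ι (U a) = σ a := by
  let e := Fintype.equivFin κ
  obtain ⟨ι, h1, h2⟩ := PW.H26.exists_embedding hr (U ∘ e.symm) (hU.comp _ e.symm.injective)
    (σ ∘ e.symm) (hσ.comp _ e.symm.injective)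
  refine ⟨ι, h1, fun a => ?_⟩
  have h3 := h2 (e a)
  change ι (U (e.symm (e a))) = σ (e.symm (e a)) at h3
  rwa [Equiv.symm_apply_apply] at h3

section parts

variable {E : Type} [Field E] [CharZero E]

/-- The part of `f` which meets `Z` lives in the neighbourhood of `Z`. -/
theorem vars_sub_cut {s : ℕ} {Γ : ℕ → Finset ℕ} (hs : Sym s Γ) {f : MvPolynomial ℕ E}
    (hf : IsG Γ f) (Z : Finset ℕ) : (f - cut (fun i => i ∉ Z) f).vars ⊆ nb Γ Z := by
  classical
  have key : f - cut (fun i => i ∉ Z) f =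
      ∑ m ∈ f.support, (monomial m (coeff m f) - cut (fun i => i ∉ Z) (monomial m (coeff m f))) := by
    rw [Finset.sum_sub_distrib, ← map_sum, ← f.as_sum]
  intro l hl
  rw [key] at hl
  have h1 := vars_sum_subset _ _ hl
  rw [Finset.mem_biUnion] at h1
  obtain ⟨m, hm, hlm⟩ := h1
  by_cases h : ∃ i ∈ m.support, i ∈ Z
  · obtain ⟨i, hi, hiZ⟩ := h
    rw [cut_monomial_neg (p := fun i => i ∉ Z) _ hi (not_not.2 hiZ), sub_zero,
      vars_monomial (mem_support_iff.1 hm)] at hlm
    refine Finset.mem_biUnion.2 ⟨i, hiZ, ?_⟩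
    by_cases hil : l = i
    · rw [hil]
      exact hs.refl i
    · refine hf i ?_
      by_contra hcon
      exact interact hm hil hlm hi (pderiv_eq_zero_of_notMem_vars hcon)
  · push Not at h
    rw [cut_monomial_pos (p := fun i => i ∉ Z) _ h, sub_self] at hlm
    simp at hlm

end parts

section point

variable {E D : Type} [Field E] [CharZero E] [CommRing D] [Algebra E D]

/-- The point over an algebraically closed field containing the generic point. -/
theorem exists_point_aux {Om : Type} [Field Om] [IsAlgClosed Om]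
    (j : MvPolynomial ℕ D →+* Om) (hj : Function.Injective j) {ρ s : ℕ} (Γ : ℕ → Finset ℕ)
    (hs : Sym s Γ) (y : Fin ρ → MvPolynomial ℕ E) (hy : ∀ a, IsG Γ (y a)) (J : Finset ℕ)
    (z : Fin ρ → ℕ) (hz : Piv y z) (hzJ : nz Γ z ⊆ J)
    (z' : Fin ρ → ℕ) (hz' : Piv y z') (hz'J : ∀ b, z' b ∉ J)
    (m : ℕ) (hm : ρ * s ≤ m) (ζ : ℕ → D) (hζ : Free E m ζ) :
    ∃ e : MvPolynomial ℕ D →+* Om,
      (∀ d, e (C d) = j (C d)) ∧ (∀ i, (∀ b, i ≠ z b) → e (X i) = j (X i)) ∧
      ∀ a, e (Ph ζ J (y a)) = 0 := by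
  classical
  let alg : Algebra E Om := (j.comp (algebraMap E (MvPolynomial ℕ D))).toAlgebra
  let jE : MvPolynomial ℕ D →ₐ[E] Om := { j with commutes' := fun _ => rfl }
  have hjE : Function.Injective jE := hj
  let Z : Finset ℕ := Finset.univ.image z
  have hzZ : ∀ b, z b ∈ Z := fun b => Finset.mem_image_of_mem z (Finset.mem_univ b)
  have hnb : nb Γ Z ⊆ J := by
    intro i hi
    obtain ⟨l, hl, hil⟩ := Finset.mem_biUnion.1 hi
    obtain ⟨b, -, rfl⟩ := Finset.mem_image.1 hl
    exact hzJ (Finset.mem_biUnion.2 ⟨b, Finset.mem_univ b, hil⟩)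
  have hZJ : Z ⊆ J := (PX.H22.subset_nb hs Z).trans hnb
  have hZc : Z.card = ρ := by
    rw [Finset.card_image_of_injective _ hz.1, Finset.card_univ, Fintype.card_fin]
  let A : Fin ρ → MvPolynomial ℕ E := fun a => cut (fun i => i ∉ Z) (y a)
  have hB : ∀ a, ∃ q : MvPolynomial J E, rename (fun i : J => (i : ℕ)) q = y a - A a := by
    intro a
    refine MvPolynomial.exists_rename_eq_of_vars_subset_range _ (fun i : J => (i : ℕ))
      Subtype.val_injective fun i hi => ⟨⟨i, hnb (vars_sub_cut hs (hy a) Z hi)⟩, rfl⟩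
  choose B hB using hB
  have hdA : ∀ a b, pderiv (z b) (y a - A a) = pderiv (z b) (y a) := by
    intro a b
    rw [map_sub, pderiv_cut_neg (p := fun i => i ∉ Z) (not_not.2 (hzZ b)), sub_zero]
  -- the first family
  let U : (J \ Z : Finset ℕ) ⊕ Fin ρ → MvPolynomial J E :=
    Sum.elim (fun i => X ⟨(i : ℕ), (Finset.mem_sdiff.1 i.2).1⟩) B
  have hU : AlgebraicIndependent E U := by
    apply indep_of_minor (rename fun i : J => (i : ℕ)) U (Sum.elim (fun i => (i : ℕ)) z)
    have h1 : (Matrix.of fun l i => pderiv (Sum.elim (fun i : (J \ Z : Finset ℕ) => (i : ℕ)) z i)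
        (rename (fun i : J => (i : ℕ)) (U l))) = Matrix.fromBlocks 1 0
          (Matrix.of fun (a : Fin ρ) (i : (J \ Z : Finset ℕ)) => pderiv (i : ℕ) (y a - A a))
          (Matrix.of fun a b : Fin ρ => pderiv (z b) (y a)) := by
      ext1 l i
      rcases l with l | a <;> rcases i with i | b
      · change pderiv (i : ℕ) (rename (fun i : J => (i : ℕ)) (X ⟨(l : ℕ), _⟩)) =
          (1 : Matrix _ _ _) l i
        rw [rename_X]
        by_cases hli : l = i
        · rw [hli, pderiv_X_self, Matrix.one_apply_eq]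
        · rw [Matrix.one_apply_ne hli, pderiv_X_of_ne (fun h => hli (Subtype.ext h))]
      · change pderiv (z b) (rename (fun i : J => (i : ℕ)) (X ⟨(l : ℕ), _⟩)) = 0
        rw [rename_X, pderiv_X_of_ne]
        intro h
        exact (Finset.mem_sdiff.1 l.2).2 (h ▸ hzZ b)
      · change pderiv (i : ℕ) (rename (fun i : J => (i : ℕ)) (B a)) = pderiv (i : ℕ) (y a - A a)
        rw [hB]
      · change pderiv (z b) (rename (fun i : J => (i : ℕ)) (B a)) = pderiv (z b) (y a)
        rw [hB, hdA]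
    rw [h1, Matrix.det_fromBlocks_zero₁₂, Matrix.det_one, one_mul]
    intro h2
    apply hz.2
    have h3 : VV y z = Matrix.transpose
        ((io E).mapMatrix (Matrix.of fun a b : Fin ρ => pderiv (z b) (y a))) := by
      ext b a
      rfl
    rw [h3, Matrix.det_transpose, ← RingHom.map_det, h2, map_zero]
  -- the second family
  let S : (J \ Z : Finset ℕ) ⊕ Fin ρ → MvPolynomial ℕ D :=
    Sum.elim (fun i => X (i : ℕ)) fun a => -Ph (E := E) ζ J (A a)
  obtain ⟨π, hπ1, hπ2⟩ := hζ (nz Γ z') ((PX.H22.card_nz hs z').trans hm)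
  have hPh : ∀ g : MvPolynomial ℕ E, ex π (Ph ζ J g) = cut (fun i => i ∈ J ∨ i ∈ nz Γ z') g := by
    intro g
    change ((ex π).comp (Ph ζ J)) g = _
    congr 1
    apply MvPolynomial.algHom_ext
    intro i
    change ex π (Ph ζ J (X i)) = _
    rw [Ph, aeval_X]
    by_cases hi : i ∈ J
    · rw [if_pos hi, ex_X, cut_X_pos (p := fun i => i ∈ J ∨ i ∈ nz Γ z') (Or.inl hi)]
    · rw [if_neg hi, ex_C]
      by_cases hi' : i ∈ nz Γ z'
      · rw [cut_X_pos (p := fun i => i ∈ J ∨ i ∈ nz Γ z') (Or.inr hi')]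
        exact hπ1 i hi'
      · rw [cut_X_neg (p := fun i => i ∈ J ∨ i ∈ nz Γ z') (not_or.2 ⟨hi, hi'⟩)]
        exact hπ2 i hi'
  have hS : AlgebraicIndependent E S := by
    apply indep_of_minor (ex π) S (Sum.elim (fun i => (i : ℕ)) z')
    have h1 : (Matrix.of fun l i => pderiv (Sum.elim (fun i : (J \ Z : Finset ℕ) => (i : ℕ)) z' i)
        (ex π (S l))) = Matrix.fromBlocks 1 0
          (Matrix.of fun (a : Fin ρ) (i : (J \ Z : Finset ℕ)) =>
            pderiv (i : ℕ) (ex π (S (Sum.inr a))))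
          (-Matrix.of fun a b : Fin ρ => pderiv (z' b) (y a)) := by
      ext1 l i
      rcases l with l | a <;> rcases i with i | b
      · change pderiv (i : ℕ) (ex π (X (l : ℕ))) = (1 : Matrix _ _ _) l i
        rw [ex_X]
        by_cases hli : l = i
        · rw [hli, pderiv_X_self, Matrix.one_apply_eq]
        · rw [Matrix.one_apply_ne hli, pderiv_X_of_ne (fun h => hli (Subtype.ext h))]
      · change pderiv (z' b) (ex π (X (l : ℕ))) = 0
        rw [ex_X, pderiv_X_of_ne]
        intro h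
        exact hz'J b (h ▸ (Finset.mem_sdiff.1 l.2).1)
      · rfl
      · change pderiv (z' b) (ex π (-Ph ζ J (A a))) = -pderiv (z' b) (y a)
        have hb : z' b ∈ nz Γ z' := Finset.mem_biUnion.2 ⟨b, Finset.mem_univ _, hs.refl _⟩
        rw [map_neg, map_neg, hPh, pderiv_cut_pos (p := fun i => i ∈ J ∨ i ∈ nz Γ z') (Or.inr hb)]
        congr 1
        have h2 : pderiv (z' b) (A a) = pderiv (z' b) (y a) := by
          have h3 : pderiv (z' b) (y a - A a) = 0 := by
            apply pderiv_eq_zero_of_notMem_vars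
            intro h
            exact hz'J b (hnb (vars_sub_cut hs (hy a) Z h))
          rw [map_sub, sub_eq_zero] at h3
          exact h3.symm
        rw [h2]
        apply cut_eq_self
        intro i hi
        apply pderiv_eq_zero_of_notMem_vars
        intro hiv
        exact hi (Or.inr (Finset.mem_biUnion.2 ⟨b, Finset.mem_univ _, hy a (z' b) hiv⟩))
    rw [h1, Matrix.det_fromBlocks_zero₁₂, Matrix.det_one, one_mul, Matrix.det_neg]
    intro h2
    have h2' := (mul_eq_zero.1 h2).resolve_left (pow_ne_zero _ (neg_ne_zero.2 one_ne_zero))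
    apply hz'.2
    have h3 : VV y z' = Matrix.transpose
        ((io E).mapMatrix (Matrix.of fun a b : Fin ρ => pderiv (z' b) (y a))) := by
      ext b a
      rfl
    rw [h3, Matrix.det_transpose, ← RingHom.map_det, h2', map_zero]
  -- the embedding
  have hcard : Fintype.card J = Fintype.card ((J \ Z : Finset ℕ) ⊕ Fin ρ) := by
    rw [Fintype.card_sum, Fintype.card_coe, Fintype.card_coe, Fintype.card_fin,
      Finset.card_sdiff_of_subset hZJ, hZc]
    have := hZc ▸ Finset.card_le_card hZJ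
    omega
  obtain ⟨ι, -, hι⟩ := exists_embedding' hcard U hU (jE ∘ S) (hS.map' hjE)
  let e : MvPolynomial ℕ D →+* Om := eval₂Hom (j.comp C)
    (fun i => if h : i ∈ Z then ι (X ⟨i, hZJ h⟩) else j (X i))
  have heC : ∀ d, e (C d) = j (C d) := fun d => eval₂Hom_C _ _ d
  have heX : ∀ i, i ∉ Z → e (X i) = j (X i) := by
    intro i hi
    change eval₂Hom _ _ (X i) = _
    rw [eval₂Hom_X', dif_neg hi]
  have heZ : ∀ i (h : i ∈ Z), e (X i) = ι (X ⟨i, hZJ h⟩) := by
    intro i hi
    change eval₂Hom _ _ (X i) = _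
    rw [eval₂Hom_X', dif_pos hi]
  refine ⟨e, heC, fun i hi => heX i ?_, fun a => ?_⟩
  · intro h
    obtain ⟨b, -, hb⟩ := Finset.mem_image.1 h
    exact hi b hb.symm
  have hA : ∀ p : MvPolynomial J E, e (Ph ζ J (rename (fun i : J => (i : ℕ)) p)) = ι p := by
    intro p
    have h : (e.comp (Ph (E := E) ζ J).toRingHom).comp
        (rename (fun i : J => (i : ℕ)) : MvPolynomial J E →ₐ[E] MvPolynomial ℕ E).toRingHom =
        ι.toRingHom := by
      refine ringHom_ext (fun r => ?_) fun i => ?_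
      · change e (Ph (E := E) ζ _ (rename (fun i : J => (i : ℕ)) (C r))) = ι (C r)
        rw [rename_C, Ph, aeval_C]
        have h1 : ι (C r) = algebraMap E Om r := ι.commutes r
        rw [h1]
        have h2 : algebraMap E (MvPolynomial ℕ D) r = C (algebraMap E D r) := rfl
        rw [h2, heC]
        rfl
      · change e (Ph (E := E) ζ _ (rename (fun i : J => (i : ℕ)) (X i))) = ι (X i)
        rw [rename_X, Ph, aeval_X, if_pos i.2]
        by_cases hi : (i : ℕ) ∈ Z
        · exact heZ _ hi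
        · rw [heX _ hi]
          exact (hι (Sum.inl ⟨(i : ℕ), Finset.mem_sdiff.2 ⟨i.2, hi⟩⟩)).symm
    exact RingHom.congr_fun h p
  have hC : ∀ p : MvPolynomial ℕ E, e (Ph ζ J (cut (fun i => i ∉ Z) p)) =
      j (Ph ζ J (cut (fun i => i ∉ Z) p)) := by
    intro p
    have h : (e.comp (Ph (E := E) ζ J).toRingHom).comp (cut (E := E) (fun i => i ∉ Z)).toRingHom =
        (j.comp (Ph (E := E) ζ J).toRingHom).comp (cut (E := E) (fun i => i ∉ Z)).toRingHom := by
      refine ringHom_ext (fun r => ?_) fun i => ?_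
      · change e (Ph (E := E) ζ _ (cut _ (C r))) = j (Ph (E := E) ζ _ (cut _ (C r)))
        rw [cut, aeval_C, algebraMap_eq, Ph, aeval_C]
        exact heC _
      · change e (Ph (E := E) ζ _ (cut _ (X i))) = j (Ph (E := E) ζ _ (cut _ (X i)))
        by_cases hi : i ∈ Z
        · rw [cut_X_neg (p := fun i => i ∉ Z) (not_not.2 hi), map_zero, map_zero, map_zero]
        · rw [cut_X_pos (p := fun i => i ∉ Z) hi, Ph, aeval_X]
          split_ifs with h2
          · exact heX i hi
          · exact heC _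
    exact RingHom.congr_fun h p
  have h1 : y a = rename (fun i : J => (i : ℕ)) (B a) + A a := by
    rw [hB, sub_add_cancel]
  rw [h1, map_add, map_add, hA, hC]
  have h2 : ι (B a) = jE (-Ph (E := E) ζ J (A a)) := hι (Sum.inr a)
  rw [h2]
  change j (-_) + j _ = 0
  rw [map_neg, neg_add_cancel]

end point

/-- ROW EPX from row PIX. -/
theorem epx (pix : PixStmt) : EpxStmt := by
  intro E D _ _ _ _ _ ζ m ρ N s Γ y J1 z hs hζ hli hy hrob hz hzJ hN hm
  have hs1 : 1 ≤ s := (Finset.card_pos.2 ⟨0, hs.refl 0⟩).trans_le (hs.card 0)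
  have hcard : (J1 ∪ nz Γ z).card + ρ * (s * s) ≤ N := by
    refine le_trans ?_ hN
    refine Nat.add_le_add_right ((Finset.card_union_le _ _).trans ?_) _
    refine le_trans (Nat.add_le_add_left (PX.H22.card_nz hs z) _) ?_
    exact Nat.le_mul_of_pos_right _ hs1
  obtain ⟨z', hz', hz'J⟩ := pix E ρ N s Γ y hs hli hy hrob (J1 ∪ nz Γ z) hcard
  let j0 : FractionRing (MvPolynomial ℕ D) →+* AlgebraicClosure (FractionRing (MvPolynomial ℕ D)) :=
    algebraMap _ _
  have hj0 : Function.Injective j0 := j0.injective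
  let j : MvPolynomial ℕ D →+* AlgebraicClosure (FractionRing (MvPolynomial ℕ D)) :=
    j0.comp (algebraMap (MvPolynomial ℕ D) (FractionRing (MvPolynomial ℕ D)))
  have hj : Function.Injective j := fun a b h =>
    IsFractionRing.injective (MvPolynomial ℕ D) (FractionRing (MvPolynomial ℕ D)) (hj0 h)
  obtain ⟨e, h1, h2, h3⟩ := exists_point_aux j hj Γ hs y hy (J1 ∪ nz Γ z) z hz
    Finset.subset_union_right z' hz' hz'J m hm ζ hζ
  let alg : Algebra E (AlgebraicClosure (FractionRing (MvPolynomial ℕ D))) :=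
    (j.comp (algebraMap E (MvPolynomial ℕ D))).toAlgebra
  let jE : MvPolynomial ℕ D →ₐ[E] AlgebraicClosure (FractionRing (MvPolynomial ℕ D)) :=
    { j with commutes' := fun _ => rfl }
  let eE : MvPolynomial ℕ D →ₐ[E] AlgebraicClosure (FractionRing (MvPolynomial ℕ D)) :=
    { e with commutes' := fun r => h1 _ }
  exact ⟨_, inferInstance, alg, jE, eE, hj, h1, fun i hi => h2 i fun b hb => hi ⟨b, hb.symm⟩, h3⟩

end Pool.Agent.PX.H26
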